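import Mathlib
import Pool.Graph.R_pool_sql_team_seeded_620a6dc7.Helper673_PQ.Main2

/-!
# Reduction of free groups of infinite rank to free groups of finite rank

`X` is any type. A right ideal of finite rank of the group algebra of `FreeGroup X` has a basis supported in
`FreeGroup S` for a finite subset `S` of `X`; with the retraction of `FreeGroup X` onto `FreeGroup S` one gets a
right ideal of the same rank of the group algebra of `FreeGroup S`.
-/

set_option autoImplicit false

namespace Pool.Agent.KS6_4.PR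

open Module

universe u

section Ring

variable {A : Type u} [Ring A] {I : Submodule Aᵐᵒᵖ A} {ι : Type*}

theorem coord_sum [Fintype ι] (b : Basis ι Aᵐᵒᵖ I) (x : I) :
    (x : A) = ∑ i, (b i : A) * (b.repr x i).unop := by
  conv_lhs => rw [← b.sum_repr x]
  rw [AddSubmonoidClass.coe_finsetSum]
  rfl

theorem coord_zero [Fintype ι] (b : Basis ι Aᵐᵒᵖ I) (c : ι → A) (h : ∑ i, (b i : A) * c i = 0) :
    ∀ i, c i = 0 := by
  intro i
  have h1 : ∑ i, MulOpposite.op (c i) • b i = 0 := by
    apply Subtype.ext
    rw [AddSubmonoidClass.coe_finsetSum]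
    exact h
  have h2 := Fintype.linearIndependent_iff.1 b.linearIndependent _ h1 i
  exact MulOpposite.op_injective h2

end Ring

section Main

variable {K : Type u} [Field K] {X : Type}

/-- the inclusion of the free factor on `S` -/
def inc (S : Finset X) : FreeGroup {x // x ∈ S} →* FreeGroup X := FreeGroup.map Subtype.val

open Classical in
/-- the retraction onto the free factor on `S` -/
noncomputable def ret (S : Finset X) : FreeGroup X →* FreeGroup {x // x ∈ S} :=
  FreeGroup.lift fun x => if h : x ∈ S then FreeGroup.of ⟨x, h⟩ else 1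

theorem ret_inc (S : Finset X) (g : FreeGroup {x // x ∈ S}) : ret S (inc S g) = g := by
  have : (ret S).comp (inc S) = MonoidHom.id _ := by
    apply FreeGroup.ext_hom
    intro x
    simp [ret, inc]
  exact DFunLike.congr_fun this g

theorem inc_injective (S : Finset X) : Function.Injective (inc S) :=
  Function.LeftInverse.injective (ret_inc S)

theorem inc_ret (S : Finset X) (L : List (X × Bool)) (hL : ∀ y ∈ L, y.1 ∈ S) :
    inc S (ret S (FreeGroup.mk L)) = FreeGroup.mk L := by
  induction L with
  | nil => exact (map_one _)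
  | cons a L ih =>
    have h1 : (FreeGroup.mk (a :: L) : FreeGroup X) = FreeGroup.mk [a] * FreeGroup.mk L := by
      rw [FreeGroup.mul_mk]; rfl
    rw [h1, map_mul, map_mul, ih fun y hy => hL y (List.mem_cons_of_mem _ hy)]
    congr 1
    obtain ⟨x, c⟩ := a
    have hx : x ∈ S := hL (x, c) List.mem_cons_self
    have h2 : inc S (ret S (FreeGroup.of x)) = FreeGroup.of x := by
      simp [ret, inc, hx]
    cases c
    · have h3 : (FreeGroup.mk [(x, false)] : FreeGroup X) = (FreeGroup.of x)⁻¹ := by
        rw [FreeGroup.of, FreeGroup.inv_mk]; rfl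
      rw [h3, map_inv, map_inv, h2]
    · exact h2

/-- the inclusion of group algebras -/
noncomputable def eA (K : Type u) [Field K] (S : Finset X) :
    MonoidAlgebra K (FreeGroup {x // x ∈ S}) →+* MonoidAlgebra K (FreeGroup X) :=
  MonoidAlgebra.mapDomainRingHom K (inc S)

/-- the retraction of group algebras -/
noncomputable def rA (K : Type u) [Field K] (S : Finset X) :
    MonoidAlgebra K (FreeGroup X) →+* MonoidAlgebra K (FreeGroup {x // x ∈ S}) :=
  MonoidAlgebra.mapDomainRingHom K (ret S)

theorem eA_single (S : Finset X) (g : FreeGroup {x // x ∈ S}) (c : K) :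
    eA K S (MonoidAlgebra.single g c) = MonoidAlgebra.single (inc S g) c := by
  simp [eA, MonoidAlgebra.mapDomainRingHom_apply]

theorem rA_single (S : Finset X) (g : FreeGroup X) (c : K) :
    rA K S (MonoidAlgebra.single g c) = MonoidAlgebra.single (ret S g) c := by
  simp [rA, MonoidAlgebra.mapDomainRingHom_apply]

theorem rA_eA (S : Finset X) (a : MonoidAlgebra K (FreeGroup {x // x ∈ S})) : rA K S (eA K S a) = a := by
  induction a using MonoidAlgebra.induction_linear with
  | zero => simp
  | add f g hf hg => rw [map_add, map_add, hf, hg]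
  | single g c => rw [eA_single, rA_single, ret_inc]

theorem eA_injective (S : Finset X) : Function.Injective (eA K S (X := X)) :=
  Function.LeftInverse.injective (rA_eA S)

open Classical in
theorem exists_finset (T : Finset (FreeGroup X)) : ∃ S : Finset X, ∀ g ∈ T, inc S (ret S g) = g := by
  refine ⟨T.biUnion fun g => (g.toWord.map Prod.fst).toFinset, fun g hg => ?_⟩
  have h1 := inc_ret (T.biUnion fun g => (g.toWord.map Prod.fst).toFinset) g.toWord fun y hy => by
    rw [Finset.mem_biUnion]
    exact ⟨g, hg, by rw [List.mem_toFinset]; exact List.mem_map_of_mem hy⟩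
  rwa [FreeGroup.mk_toWord] at h1

open Classical in
theorem eA_rA (a : MonoidAlgebra K (FreeGroup X)) :
    ∃ T : Finset (FreeGroup X), ∀ S : Finset X, (∀ g ∈ T, inc S (ret S g) = g) → eA K S (rA K S a) = a := by
  induction a using MonoidAlgebra.induction_linear with
  | zero => exact ⟨∅, fun S _ => by simp⟩
  | add f g hf hg =>
    obtain ⟨T1, h1⟩ := hf
    obtain ⟨T2, h2⟩ := hg
    refine ⟨T1 ∪ T2, fun S hS => ?_⟩
    rw [map_add, map_add, h1 S fun g hg => hS g (Finset.mem_union_left _ hg),
      h2 S fun g hg => hS g (Finset.mem_union_right _ hg)]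
  | single g c =>
    refine ⟨{g}, fun S hS => ?_⟩
    rw [rA_single, eA_single, hS g (Finset.mem_singleton_self _)]

/-- The reduction: the lower bound for arbitrary rank. -/
theorem subgroup_of_ideal (w : FreeGroup X) (hw1 : w ≠ 1)
    (I : Submodule (MonoidAlgebra K (FreeGroup X))ᵐᵒᵖ (MonoidAlgebra K (FreeGroup X)))
    (htop : I ≠ ⊤)
    (hω : (MonoidAlgebra.single w (1 : K) - 1 : MonoidAlgebra K (FreeGroup X)) ∈ I)
    {n : ℕ} (b : Basis (Fin n) (MonoidAlgebra K (FreeGroup X))ᵐᵒᵖ I)
    (hnp : ¬ Pool.Agent.Helper673_PQ.IsPrimitiveIn I (MonoidAlgebra.single w (1 : K) - 1)) :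
    ∃ (H : Subgroup (FreeGroup X)) (hw : w ∈ H),
      (∃ t : Finset H, t.card ≤ n ∧ Subgroup.closure (t : Set H) = ⊤) ∧
      ¬ Pool.Agent.Helper166_PQ.IsPrimitive (⟨w, hw⟩ : H) := by
  classical
  choose T hT using fun i : Fin n => eA_rA (b i : MonoidAlgebra K (FreeGroup X))
  obtain ⟨S, hS⟩ := exists_finset (insert w (Finset.univ.biUnion T))
  have hSw : inc S (ret S w) = w := hS w (Finset.mem_insert_self _ _)
  have hSb : ∀ i, eA K S (rA K S (b i)) = b i := fun i => hT i S fun g hg =>
    hS g (Finset.mem_insert_of_mem (Finset.mem_biUnion.2 ⟨i, Finset.mem_univ i, hg⟩))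
  -- the ideal
  let I0 : Submodule (MonoidAlgebra K (FreeGroup {x // x ∈ S}))ᵐᵒᵖ (MonoidAlgebra K (FreeGroup {x // x ∈ S})) :=
    { carrier := {a | eA K S a ∈ I}
      add_mem' := fun {a c} ha hc => by
        show eA K S (a + c) ∈ I
        rw [map_add]
        exact I.add_mem ha hc
      zero_mem' := by
        show eA K S 0 ∈ I
        rw [map_zero]
        exact I.zero_mem
      smul_mem' := fun c a ha => by
        show eA K S (a * c.unop) ∈ I
        rw [map_mul]
        exact I.smul_mem (MulOpposite.op (eA K S c.unop)) ha }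
  have hI0 : ∀ a, a ∈ I0 ↔ eA K S a ∈ I := fun a => Iff.rfl
  let β : Fin n → I0 := fun i => ⟨rA K S (b i), by rw [hI0, hSb]; exact (b i).2⟩
  have hβ : ∀ i, ((β i : I0) : MonoidAlgebra K (FreeGroup {x // x ∈ S})) = rA K S (b i) := fun i => rfl
  have hβe : ∀ i, eA K S (β i) = b i := fun i => by rw [hβ, hSb]
  have hli : LinearIndependent (MonoidAlgebra K (FreeGroup {x // x ∈ S}))ᵐᵒᵖ β := by
    rw [Fintype.linearIndependent_iff]
    intro c hc i
    have h1 : ∑ i, (b i : MonoidAlgebra K (FreeGroup X)) * eA K S (c i).unop = 0 := by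
      have h2 := congrArg (fun x : I0 => eA K S (x : MonoidAlgebra K (FreeGroup {x // x ∈ S}))) hc
      simp only [AddSubmonoidClass.coe_finsetSum, map_sum, ZeroMemClass.coe_zero, map_zero] at h2
      rw [← h2]
      refine Finset.sum_congr rfl fun i _ => ?_
      show _ = eA K S ((β i : MonoidAlgebra K (FreeGroup {x // x ∈ S})) * (c i).unop)
      rw [map_mul, hβe]
    have h3 := coord_zero b _ h1 i
    have h4 : (c i).unop = 0 := eA_injective S (by rw [h3, map_zero])
    exact MulOpposite.unop_injective h4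
  have hsp : ⊤ ≤ Submodule.span (MonoidAlgebra K (FreeGroup {x // x ∈ S}))ᵐᵒᵖ (Set.range β) := by
    rintro ⟨a, ha⟩ -
    have h1 := coord_sum b ⟨eA K S a, ha⟩
    have h2 : a = ∑ i, (β i : MonoidAlgebra K (FreeGroup {x // x ∈ S})) * rA K S (b.repr ⟨eA K S a, ha⟩ i).unop := by
      have h3 := congrArg (rA K S) h1
      rw [rA_eA, map_sum] at h3
      refine h3.trans ?_
      exact Finset.sum_congr rfl fun i _ => by rw [map_mul]
    have h3 : (⟨a, ha⟩ : I0) = ∑ i, MulOpposite.op (rA K S (b.repr ⟨eA K S a, ha⟩ i).unop) • β i := by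
      apply Subtype.ext
      rw [AddSubmonoidClass.coe_finsetSum]
      exact h2
    rw [h3]
    exact Submodule.sum_mem _ fun i _ => Submodule.smul_mem _ _ (Submodule.subset_span ⟨i, rfl⟩)
  let b0 : Basis (Fin n) (MonoidAlgebra K (FreeGroup {x // x ∈ S}))ᵐᵒᵖ I0 := Basis.mk hli hsp
  have hb0 : ∀ i, b0 i = β i := fun i => Basis.mk_apply hli hsp i
  have htop0 : I0 ≠ ⊤ := by
    intro h
    apply htop
    have h1 : (1 : MonoidAlgebra K (FreeGroup {x // x ∈ S})) ∈ I0 := by rw [h]; exact Submodule.mem_top
    rw [hI0, map_one] at h1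
    rw [eq_top_iff]
    intro a _
    have h2 := I.smul_mem (MulOpposite.op a) h1
    have h3 : MulOpposite.op a • (1 : MonoidAlgebra K (FreeGroup X)) = a := one_mul a
    rwa [h3] at h2
  have he0 : eA K S (MonoidAlgebra.single (ret S w) (1 : K) - 1) = MonoidAlgebra.single w (1 : K) - 1 := by
    rw [map_sub, map_one, eA_single, hSw]
  have hω0 : (MonoidAlgebra.single (ret S w) (1 : K) - 1 : MonoidAlgebra K (FreeGroup {x // x ∈ S})) ∈ I0 := by
    rw [hI0, he0]
    exact hω
  have hw0 : ret S w ≠ 1 := by
    intro h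
    rw [h, map_one] at hSw
    exact hw1 hSw.symm
  have hnp0 : ¬ Pool.Agent.Helper673_PQ.IsPrimitiveIn I0 (MonoidAlgebra.single (ret S w) (1 : K) - 1) := by
    rintro ⟨κ, d, k, hk⟩
    apply hnp
    have hfin : Module.Finite (MonoidAlgebra K (FreeGroup {x // x ∈ S}))ᵐᵒᵖ I0 := Module.Finite.of_basis b0
    have hκ : Finite κ := Module.Finite.finite_basis d
    have := Fintype.ofFinite κ
    have hP : ∀ j, ((d j : I0) : MonoidAlgebra K (FreeGroup {x // x ∈ S})) =
        ∑ i, (β i : MonoidAlgebra K (FreeGroup {x // x ∈ S})) * (b0.repr (d j) i).unop := fun j => by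
      have h1 := coord_sum b0 (d j)
      simp only [hb0] at h1
      exact h1
    have hQ : ∀ i, ((β i : I0) : MonoidAlgebra K (FreeGroup {x // x ∈ S})) =
        ∑ k, (d k : MonoidAlgebra K (FreeGroup {x // x ∈ S})) * (d.repr (β i) k).unop := fun i => coord_sum d (β i)
    have hPQ : ∀ j k, ∑ i, (d.repr (β i) k).unop * (b0.repr (d j) i).unop = if k = j then 1 else 0 := by
      intro j k
      have h1 : ∑ k, (d k : MonoidAlgebra K (FreeGroup {x // x ∈ S})) *
          (∑ i, (d.repr (β i) k).unop * (b0.repr (d j) i).unop - if k = j then 1 else 0) = 0 := by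
        simp only [mul_sub, Finset.sum_sub_distrib, mul_ite, mul_one, mul_zero]
        rw [Finset.sum_ite_eq' Finset.univ j, if_pos (Finset.mem_univ j), sub_eq_zero, hP j]
        have h2 : ∀ i, (β i : MonoidAlgebra K (FreeGroup {x // x ∈ S})) * (b0.repr (d j) i).unop =
            ∑ k, (d k : MonoidAlgebra K (FreeGroup {x // x ∈ S})) * ((d.repr (β i) k).unop * (b0.repr (d j) i).unop) :=
          fun i => by
            conv_lhs => rw [hQ i]
            rw [Finset.sum_mul]
            exact Finset.sum_congr rfl fun k _ => mul_assoc _ _ _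
        simp only [Finset.mul_sum]
        rw [Finset.sum_comm]
        exact Finset.sum_congr rfl fun i _ => (h2 i).symm
      exact sub_eq_zero.1 (coord_zero d _ h1 k)
    let D : κ → I := fun j => ⟨eA K S (d j), (d j).2⟩
    have hD : ∀ j, ((D j : I) : MonoidAlgebra K (FreeGroup X)) = eA K S (d j) := fun j => rfl
    have hDP : ∀ j, ((D j : I) : MonoidAlgebra K (FreeGroup X)) =
        ∑ i, (b i : MonoidAlgebra K (FreeGroup X)) * eA K S (b0.repr (d j) i).unop := fun j => by
      rw [hD, hP j, map_sum]
      exact Finset.sum_congr rfl fun i _ => by rw [map_mul, hβe]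
    have hDQ : ∀ i, ((b i : I) : MonoidAlgebra K (FreeGroup X)) =
        ∑ k, (D k : MonoidAlgebra K (FreeGroup X)) * eA K S (d.repr (β i) k).unop := fun i => by
      rw [← hβe, hQ i, map_sum]
      exact Finset.sum_congr rfl fun k _ => by rw [map_mul]
    have hliD : LinearIndependent (MonoidAlgebra K (FreeGroup X))ᵐᵒᵖ D := by
      rw [Fintype.linearIndependent_iff]
      intro c hc k
      have h1 : ∑ i, (b i : MonoidAlgebra K (FreeGroup X)) *
          (∑ j, eA K S (b0.repr (d j) i).unop * (c j).unop) = 0 := by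
        have h2 := congrArg (fun x : I => (x : MonoidAlgebra K (FreeGroup X))) hc
        simp only [AddSubmonoidClass.coe_finsetSum, ZeroMemClass.coe_zero] at h2
        rw [← h2]
        simp only [Finset.mul_sum]
        rw [Finset.sum_comm]
        refine Finset.sum_congr rfl fun j _ => ?_
        show _ = (D j : MonoidAlgebra K (FreeGroup X)) * (c j).unop
        rw [hDP j, Finset.sum_mul]
        exact Finset.sum_congr rfl fun i _ => (mul_assoc _ _ _).symm
      have h3 := coord_zero b _ h1
      have h4 : (c k).unop = ∑ j, (∑ i, eA K S (d.repr (β i) k).unop * eA K S (b0.repr (d j) i).unop) * (c j).unop := by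
        have h5 : ∀ j, (∑ i, eA K S (d.repr (β i) k).unop * eA K S (b0.repr (d j) i).unop) =
            if k = j then 1 else 0 := fun j => by
          have h6 := congrArg (eA K S) (hPQ j k)
          rw [map_sum] at h6
          simp only [map_mul] at h6
          rw [h6]
          split_ifs
          · exact map_one _
          · exact map_zero _
        simp only [h5, ite_mul, one_mul, zero_mul]
        rw [Finset.sum_ite_eq Finset.univ k, if_pos (Finset.mem_univ k)]
      have h7 : (c k).unop = 0 := by
        rw [h4]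
        simp only [Finset.sum_mul, mul_assoc]
        rw [Finset.sum_comm]
        refine Finset.sum_eq_zero fun i _ => ?_
        rw [← Finset.mul_sum, h3 i, mul_zero]
      exact MulOpposite.unop_injective h7
    have hspD : ⊤ ≤ Submodule.span (MonoidAlgebra K (FreeGroup X))ᵐᵒᵖ (Set.range D) := by
      rw [← b.span_eq, Submodule.span_le]
      rintro _ ⟨i, rfl⟩
      have h1 : b i = ∑ k, MulOpposite.op (eA K S (d.repr (β i) k).unop) • D k := by
        apply Subtype.ext
        rw [AddSubmonoidClass.coe_finsetSum]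
        exact hDQ i
      rw [h1]
      exact Submodule.sum_mem _ fun k _ => Submodule.smul_mem _ _ (Submodule.subset_span ⟨k, rfl⟩)
    refine ⟨κ, Basis.mk hliD hspD, k, ?_⟩
    rw [Basis.mk_apply, hD, hk, he0]
  let : Encodable {x // x ∈ S} := Fintype.toEncodable _
  obtain ⟨H0, hwH, ⟨t, ht, htc⟩, hnpH⟩ :=
    Pool.Agent.Helper673_PQ.subgroup_of_ideal (K := K) (ret S w) hw0 I0 htop0 hω0 b0 hnp0
  rw [Nat.card_fin] at ht
  have hmem : w ∈ H0.map (inc S) := ⟨ret S w, hwH, hSw⟩
  let φ : H0 ≃* H0.map (inc S) := H0.equivMapOfInjective (inc S) (inc_injective S)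
  refine ⟨H0.map (inc S), hmem, ⟨t.image φ, Finset.card_image_le.trans ht, ?_⟩, ?_⟩
  · rw [Finset.coe_image]
    have h1 := (φ.toMonoidHom).map_closure (t : Set H0)
    rw [htc] at h1
    have h2 : (⊤ : Subgroup H0).map φ.toMonoidHom = ⊤ := Subgroup.map_top_of_surjective _ φ.surjective
    rw [h2] at h1
    exact h1.symm
  · rintro ⟨κ, d, k, hk⟩
    apply hnpH
    refine ⟨κ, d.map φ.symm, k, ?_⟩
    have h1 : φ ⟨ret S w, hwH⟩ = ⟨w, hmem⟩ := Subtype.ext hSw
    show φ.symm (d k) = _
    rw [hk, ← h1, MulEquiv.symm_apply_apply]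

end Main

end Pool.Agent.KS6_4.PR
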