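import Mathlib
import Pool.Agent.KS6_4.PR.Inf

/-!
# Words of infinite primitivity rank

`w` is primitive in `FreeGroup X` if and only if it is primitive in every subgroup of finite rank that contains it.
-/

set_option autoImplicit false

namespace Pool.Agent.KS6_4.PR

open Pool.Agent.Helper166_PQ

section AI

variable {X : Type} [DecidableEq X]

/-- the words that do not start with the inverse of `x` -/
def EE (x : X) : Set (FreeGroup X) := {h | h.toWord.head? ≠ some (x, false)}

theorem head_step (x : X) (z : X) (h : FreeGroup X) (hh : h = (FreeGroup.of x)⁻¹ → z ≠ x) :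
    h ∈ EE x ↔ h * FreeGroup.of z ∈ EE x := by
  have hL : FreeGroup.IsReduced h.toWord := FreeGroup.isReduced_toWord
  have hmk : h = FreeGroup.mk h.toWord := FreeGroup.mk_toWord.symm
  rcases List.eq_nil_or_concat h.toWord with h0 | ⟨L', b, hb⟩
  · have h1 : h = 1 := FreeGroup.toWord_eq_nil_iff.1 h0
    subst h1
    simp [EE]
  · rw [List.concat_eq_append] at hb
    by_cases hbz : b = (z, false)
    · subst hbz
      have h1 : h * FreeGroup.of z = FreeGroup.mk L' := by
        rw [hmk, hb, ← FreeGroup.mul_mk]
        have : (FreeGroup.mk [(z, false)] : FreeGroup X) = (FreeGroup.of z)⁻¹ := by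
          rw [FreeGroup.of, FreeGroup.inv_mk]; rfl
        rw [this, inv_mul_cancel_right]
      have h2 : FreeGroup.IsReduced L' := by
        rw [hb] at hL
        exact List.IsChain.left_of_append hL
      have h3 : (FreeGroup.mk L').toWord = L' := by
        rw [FreeGroup.toWord_mk, h2.reduce_eq]
      show h.toWord.head? ≠ _ ↔ (h * FreeGroup.of z).toWord.head? ≠ _
      rw [h1, h3, hb]
      cases L' with
      | nil =>
        have h4 : h = (FreeGroup.of z)⁻¹ := by
          rw [hmk, hb, FreeGroup.of, FreeGroup.inv_mk]; rfl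
        have h5 : z ≠ x := fun hzx => hh (by rw [h4, hzx]) hzx
        simp [h5]
      | cons a L => simp
    · have h1 : FreeGroup.IsReduced (h.toWord ++ [(z, true)]) := by
        refine List.isChain_append.2 ⟨hL, List.isChain_singleton _, ?_⟩
        intro y hy v hv
        rw [hb, List.getLast?_append, List.getLast?_singleton] at hy
        simp only [Option.mem_def, List.head?_cons, Option.some.injEq] at hy hv
        subst hv
        have hyb : y = b := by simpa using hy.symm
        intro h6
        by_contra h7
        apply hbz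
        rw [← hyb]
        have h8 : y.2 = false := by simpa using h7
        exact Prod.ext h6 h8
      have h2 : (h * FreeGroup.of z).toWord = h.toWord ++ [(z, true)] := by
        rw [FreeGroup.toWord_mul, FreeGroup.toWord_of, h1.reduce_eq]
      show h.toWord.head? ≠ _ ↔ (h * FreeGroup.of z).toWord.head? ≠ _
      rw [h2, hb]
      cases L' with
      | nil => simp
      | cons a L => simp

theorem ai_of (x : X) : P1_AI (FreeGroup.of x) (EE x) where
  one := by simp [EE]
  inv := by
    simp [EE, FreeGroup.toWord_inv, FreeGroup.invRev]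
  step h hh := head_step x x h fun h1 => absurd h1 hh
  fin g := by
    have key : ∀ z : X, {h : FreeGroup X | ¬ (h ∈ EE x ↔ h * FreeGroup.of z ∈ EE x)}.Finite := fun z =>
      (Set.finite_singleton ((FreeGroup.of x)⁻¹ : FreeGroup X)).subset fun h hh => by
        by_contra hne
        exact hh (head_step x z h fun h1 => absurd h1 hne)
    induction g using FreeGroup.induction_on with
    | C1 => simp
    | of z => exact key z
    | inv_of z _ =>
      refine ((key z).preimage (f := fun h => h * (FreeGroup.of z)⁻¹) (mul_left_injective _).injOn).subset ?_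
      intro h hh
      simp only [Set.mem_preimage, Set.mem_ofPred_eq, inv_mul_cancel_right] at hh ⊢
      exact fun hc => hh hc.symm
    | mul a c ha hc =>
      refine (ha.union (hc.preimage (f := fun h => h * a) (mul_left_injective _).injOn)).subset ?_
      intro h hh
      simp only [Set.mem_union, Set.mem_preimage, Set.mem_ofPred_eq, ← mul_assoc] at hh ⊢
      by_contra hcon
      push Not at hcon
      tauto

end AI

/-- A primitive word is primitive in every subgroup of finite rank which contains it. -/
theorem prim_sub {X : Type} {w : FreeGroup X} (h : IsPrimitive w) (H : Subgroup (FreeGroup X)) (hw : w ∈ H)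
    {κ : Type} [Finite κ] (c : FreeGroupBasis κ H) : IsPrimitive (⟨w, hw⟩ : H) := by
  classical
  obtain ⟨ι, b, i, hi⟩ := h
  have := Fintype.ofFinite κ
  have h1 : P1_AI (b.repr.symm (FreeGroup.of i)) _ := (ai_of i).map b.repr.symm
  have hbi : b.repr.symm (FreeGroup.of i) = w := hi
  rw [hbi] at h1
  have h2 : P1_AI (⟨w, hw⟩ : H) _ := P1_AI.comap H.subtype H.subtype_injective (w := ⟨w, hw⟩) h1
  have h3 := h2.map c.repr
  exact P1_prim_of_map c.repr (primitive_of_almostInvariant _ _ h3.fin h3.one h3.inv h3.step)

open Classical in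
/-- A primitive word of a free factor is primitive. -/
theorem prim_inc {X : Type} (S : Finset X) {w : FreeGroup {x // x ∈ S}} (h : IsPrimitive w) :
    IsPrimitive (inc S w) := by
  obtain ⟨κ, d, k, hk⟩ := h
  let f : FreeGroup (κ ⊕ {x // x ∉ S}) →* FreeGroup X :=
    FreeGroup.lift (Sum.elim (fun k => inc S (d k)) fun x => FreeGroup.of x.1)
  let g : FreeGroup X →* FreeGroup (κ ⊕ {x // x ∉ S}) :=
    FreeGroup.lift fun x => if h : x ∈ S then FreeGroup.map Sum.inl (d.repr (FreeGroup.of ⟨x, h⟩))
      else FreeGroup.of (Sum.inr ⟨x, h⟩)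
  have hg : ∀ v : FreeGroup {x // x ∈ S}, g (inc S v) = FreeGroup.map Sum.inl (d.repr v) := by
    intro v
    have : g.comp (inc S) = (FreeGroup.map Sum.inl).comp d.repr.toMonoidHom := by
      apply FreeGroup.ext_hom
      intro x
      simp [g, inc]
    exact DFunLike.congr_fun this v
  have hf : ∀ v : FreeGroup κ, f (FreeGroup.map Sum.inl v) = inc S (d.repr.symm v) := by
    intro v
    have : f.comp (FreeGroup.map Sum.inl) = (inc S).comp d.repr.symm.toMonoidHom := by
      apply FreeGroup.ext_hom
      intro x
      simp [f]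
      rfl
    exact DFunLike.congr_fun this v
  have hgf : g.comp f = MonoidHom.id _ := by
    apply FreeGroup.ext_hom
    rintro (j | x)
    · have h1 : d.repr (d j) = FreeGroup.of j := by
        show d.repr (d.repr.symm (FreeGroup.of j)) = _
        exact MulEquiv.apply_symm_apply _ _
      simp [f, hg, h1]
    · simp [f, g, x.2]
  have hfg : f.comp g = MonoidHom.id _ := by
    apply FreeGroup.ext_hom
    intro x
    by_cases hx : x ∈ S
    · simp [g, hx, hf, inc]
    · simp [f, g, hx]
  let e : FreeGroup X ≃* FreeGroup (κ ⊕ {x // x ∉ S}) := MonoidHom.toMulEquiv g f hfg hgf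
  refine ⟨κ ⊕ {x // x ∉ S}, FreeGroupBasis.ofRepr e, Sum.inl k, ?_⟩
  show f (FreeGroup.of (Sum.inl k)) = _
  simp [f, hk]

/-- A word which is not primitive is not primitive in some subgroup of finite rank. -/
theorem exists_sub {X : Type} {w : FreeGroup X} (h : ¬ IsPrimitive w) :
    ∃ (H : Subgroup (FreeGroup X)) (hw : w ∈ H), (∃ (κ : Type) (_ : Finite κ), Nonempty (FreeGroupBasis κ H)) ∧
      ¬ IsPrimitive (⟨w, hw⟩ : H) := by
  obtain ⟨S, hS⟩ := exists_finset {w}
  have hSw : inc S (ret S w) = w := hS w (Finset.mem_singleton_self w)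
  let e : FreeGroup {x // x ∈ S} ≃* (inc S).range := MonoidHom.ofInjective (inc_injective S)
  refine ⟨(inc S).range, ⟨_, hSw⟩, ⟨{x // x ∈ S}, inferInstance, ⟨FreeGroupBasis.ofRepr e.symm⟩⟩, fun hp => h ?_⟩
  have h1 : e (ret S w) = ⟨w, ⟨_, hSw⟩⟩ := Subtype.ext hSw
  rw [← h1] at hp
  have h2 := prim_inc S (P1_prim_of_map e hp)
  rwa [hSw] at h2

end Pool.Agent.KS6_4.PR
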